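import Pool.Agent.Lib.MP_fa837f_gt.P2.Iface

/-!
Project P2, module HA: the vector Hardy inequality.
-/

set_option autoImplicit false

open MeasureTheory Matrix Set Filter Topology

namespace Pool.Agent.Lib.MP_fa837f_gt.P2.H97

open Pool.Agent.Lib.MP_fa837f_gt.P2

variable {n k : ℕ}

theorem D_brep (hWa : WaStatement) (hSl : SlStatement) (S : Sys n k) (j : Fin n) (c : Fin 3)
    (f : Pt k → ℝ) (y : Pt k) :
    S.D j c f y = ∑ i, S.r y i * be S.m (S.r y) j i * S.D i c f y := by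
  have hB := hWa n k S.m (S.r y) S.hm ((hSl n k S).rpos y)
  have hfr : S.fr y j c = ∑ i, (S.r y i * be S.m (S.r y) j i) • S.fr y i c := by
    funext p
    simp only [Sys.fr, Finset.sum_apply, Pi.smul_apply, smul_eq_mul]
    split_ifs with h
    · exact hB.brep j p.1
    · simp
  unfold Sys.D
  rw [hfr, map_sum]
  simp [map_smul]

theorem ptwise (hWa : WaStatement) (hSl : SlStatement) (S : Sys n k) (j : Fin n) (c : Fin 3)
    (f : Pt k → ℝ) (y : Pt k) (T : ℝ) :
    -(2 * T * S.D j c f y + be S.m (S.r y) j j * T ^ 2) ≤ ∑ i, S.r y i * S.D i c f y ^ 2 := by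
  have hB := hWa n k S.m (S.r y) S.hm ((hSl n k S).rpos y)
  have h0 : 0 ≤ ∑ i, S.r y i * (S.D i c f y + be S.m (S.r y) j i * T) ^ 2 :=
    Finset.sum_nonneg fun i _ => mul_nonneg ((hSl n k S).rpos y i).le (sq_nonneg _)
  have h1 : ∑ i, S.r y i * (S.D i c f y + be S.m (S.r y) j i * T) ^ 2 =
      ∑ i, S.r y i * S.D i c f y ^ 2 +
        2 * T * (∑ i, S.r y i * be S.m (S.r y) j i * S.D i c f y) +
        T ^ 2 * ∑ i, be S.m (S.r y) j i * S.r y i * be S.m (S.r y) i j := by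
    rw [Finset.mul_sum, Finset.mul_sum, ← Finset.sum_add_distrib, ← Finset.sum_add_distrib]
    refine Finset.sum_congr rfl fun i _ => ?_
    rw [hB.symm i j]
    ring
  rw [h1, ← D_brep hWa hSl, hB.proj] at h0
  linarith

section deriv

variable (S : Sys n k) (j : Fin n) (c : Fin 3) (y : Pt k)

theorem D_Y (hSl : SlStatement) (hSr : SrStatement) (d : Fin 3) :
    S.D j c (fun z => Yv S.m z j d) y = if d = c then be S.m (S.r y) j j else 0 := by
  unfold Sys.D
  rw [(hSl n k S).dY, (hSr n k S 0).Yfr]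

theorem D_L (hSl : SlStatement) (hSr : SrStatement) :
    S.D j c (fun z => S.L z j) y = 2 * (Yv S.m y j c * be S.m (S.r y) j j) := by
  unfold Sys.D
  rw [(hSl n k S).dL]
  congr 1
  have : ∀ d, Yv S.m y j d * Yv S.m (S.fr y j c) j d =
      if d = c then Yv S.m y j d * be S.m (S.r y) j j else 0 := by
    intro d
    rw [(hSr n k S 0).Yfr]
    split_ifs <;> simp
  simp only [this]
  simp

theorem D_r (hSl : SlStatement) (hSr : SrStatement) :
    S.D j c (fun z => S.r z j) y =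
      S.r y j * (2 * S.δ / S.L y j * (be S.m (S.r y) j j * Yv S.m y j c)) := by
  unfold Sys.D
  rw [(hSl n k S).dr, (hSr n k S 0).dlfr]

theorem line (f : Pt k → ℝ) (hf : DifferentiableAt ℝ f y) :
    HasDerivAt (fun t : ℝ => f (y + t • S.fr y j c)) (S.D j c f y) 0 :=
  hf.hasFDerivAt.hasLineDerivAt _

theorem D_phi1 (hSl : SlStatement) (hSr : SrStatement) (H : Fin 3 → Pt k → ℝ)
    (hH : ∀ d, ContDiff ℝ 1 (H d)) :
    S.D j c (fun z => S.r z j * (S.L z j)⁻¹ * Yv S.m z j c * ∑ d, H d z ^ 2) y =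
      -(2 * (1 - S.δ) * (S.r y j * be S.m (S.r y) j j) / S.L y j ^ 2 * Yv S.m y j c ^ 2 *
          ∑ d, H d y ^ 2)
        + S.r y j * be S.m (S.r y) j j / S.L y j * ∑ d, H d y ^ 2
        + 2 * (S.r y j / S.L y j) * Yv S.m y j c * ∑ d, H d y * S.D j c (H d) y := by
  have hl := hSl n k S
  have hLp := hl.Lpos y j
  have d1 : DifferentiableAt ℝ (fun z => S.r z j) y :=
    ((hl.sr j).differentiable (by simp)).differentiableAt
  have d2 : DifferentiableAt ℝ (fun z => S.L z j) y :=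
    ((hl.sL j).differentiable (by simp)).differentiableAt
  have d3 : DifferentiableAt ℝ (fun z => Yv S.m z j c) y :=
    ((hl.sY j c).differentiable (by simp)).differentiableAt
  have d4 : ∀ d, DifferentiableAt ℝ (H d) y := fun d =>
    ((hH d).differentiable (by simp)).differentiableAt
  have dφ : DifferentiableAt ℝ
      (fun z => S.r z j * (S.L z j)⁻¹ * Yv S.m z j c * ∑ d, H d z ^ 2) y := by
    refine ((d1.mul (d2.inv hLp.ne')).mul d3).mul ?_
    exact DifferentiableAt.fun_sum fun d _ => (d4 d).pow 2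
  have e1 := line S j c y _ d1
  have e2 := line S j c y _ d2
  have e3 := line S j c y _ d3
  have e4 := fun d => line S j c y _ (d4 d)
  have hL0 : S.L (y + (0 : ℝ) • S.fr y j c) j ≠ 0 := by
    rw [zero_smul, add_zero]; exact hLp.ne'
  have e5 := ((e1.mul (e2.inv hL0)).mul e3).mul
    (HasDerivAt.fun_sum fun (d : Fin 3) (_ : d ∈ Finset.univ) => (e4 d).pow 2)
  have e6 := (line S j c y _ dφ).unique e5
  rw [e6]
  simp only [zero_smul, add_zero, Pi.mul_apply, Pi.inv_apply, Pi.pow_apply]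
  rw [D_r S j c y hSl hSr, D_L S j c y hSl hSr, D_Y S j c y hSl hSr c, if_pos rfl]
  simp only [Fin.sum_univ_three]
  field_simp
  ring

theorem D_phi2 (hSl : SlStatement) (hSr : SrStatement) (H : Fin 3 → Pt k → ℝ)
    (hH : ∀ d, ContDiff ℝ 1 (H d)) :
    S.D j c (fun z => S.r z j * (S.L z j)⁻¹ * H c z * ∑ d, Yv S.m z j d * H d z) y =
      -(2 * (1 - S.δ) * (S.r y j * be S.m (S.r y) j j) / S.L y j ^ 2 * Yv S.m y j c * H c y *
          ∑ d, Yv S.m y j d * H d y)
        + S.r y j / S.L y j * S.D j c (H c) y * (∑ d, Yv S.m y j d * H d y)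
        + S.r y j / S.L y j * H c y * (be S.m (S.r y) j j * H c y +
          ∑ d, Yv S.m y j d * S.D j c (H d) y) := by
  have hl := hSl n k S
  have hLp := hl.Lpos y j
  have d1 : DifferentiableAt ℝ (fun z => S.r z j) y :=
    ((hl.sr j).differentiable (by simp)).differentiableAt
  have d2 : DifferentiableAt ℝ (fun z => S.L z j) y :=
    ((hl.sL j).differentiable (by simp)).differentiableAt
  have d3 : ∀ d, DifferentiableAt ℝ (fun z => Yv S.m z j d) y := fun d =>
    ((hl.sY j d).differentiable (by simp)).differentiableAt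
  have d4 : ∀ d, DifferentiableAt ℝ (H d) y := fun d =>
    ((hH d).differentiable (by simp)).differentiableAt
  have dφ : DifferentiableAt ℝ
      (fun z => S.r z j * (S.L z j)⁻¹ * H c z * ∑ d, Yv S.m z j d * H d z) y := by
    refine ((d1.mul (d2.inv hLp.ne')).mul (d4 c)).mul ?_
    exact DifferentiableAt.fun_sum fun d _ => (d3 d).mul (d4 d)
  have e1 := line S j c y _ d1
  have e2 := line S j c y _ d2
  have e3 := fun d => line S j c y _ (d3 d)
  have e4 := fun d => line S j c y _ (d4 d)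
  have hL0 : S.L (y + (0 : ℝ) • S.fr y j c) j ≠ 0 := by
    rw [zero_smul, add_zero]; exact hLp.ne'
  have e5 := ((e1.mul (e2.inv hL0)).mul (e4 c)).mul
    (HasDerivAt.fun_sum fun (d : Fin 3) (_ : d ∈ Finset.univ) => (e3 d).mul (e4 d))
  have e6 := (line S j c y _ dφ).unique e5
  rw [e6]
  simp only [zero_smul, add_zero, Pi.mul_apply, Pi.inv_apply]
  rw [D_r S j c y hSl hSr, D_L S j c y hSl hSr]
  simp only [D_Y S j c y hSl hSr]
  fin_cases c <;> simp [Fin.sum_univ_three] <;> field_simp <;> ring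

end deriv

/-- The integrals of `D φ - 2 Y φ` vanish. -/
theorem ib0 (hTm : TmStatement) (hTs : TsStatement) (hIn : InStatement) (hIb : IbStatement)
    (S : Sys n k) (j : Fin n) (φ : Fin 3 → Pt k → ℝ) (hφ : ∀ c, Tame (φ c)) :
    (Integrable fun y => (∑ c, (S.D j c (φ c) y - 2 * (Yv S.m y j c * φ c y))) * S.rho y) ∧
      ∫ y, (∑ c, (S.D j c (φ c) y - 2 * (Yv S.m y j c * φ c y))) * S.rho y = 0 := by
  have hT := hTs n k S 0
  have hM := hTm k
  have i1 : ∀ c, Integrable fun y => S.D j c (φ c) y * S.rho y := fun c =>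
    hIn n k S _ (hT.pD j c _ (hφ c)).2 (hT.pD j c _ (hφ c)).1
  have i2 : ∀ c, Integrable fun y => Yv S.m y j c * φ c y * S.rho y := fun c =>
    hIn n k S _ (hM.2.1 _ _ (hT.tY j c) (hφ c)).smooth.continuous
      (hM.2.1 _ _ (hT.tY j c) (hφ c)).bd
  have i3 : ∀ c, Integrable fun y =>
      (S.D j c (φ c) y - 2 * (Yv S.m y j c * φ c y)) * S.rho y := fun c => by
    refine ((i1 c).sub ((i2 c).const_mul 2)).congr (Filter.Eventually.of_forall fun y => ?_)
    simp only [Pi.sub_apply]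
    ring
  have e3 : ∀ c, ∫ y, (S.D j c (φ c) y - 2 * (Yv S.m y j c * φ c y)) * S.rho y = 0 := fun c => by
    have : ∫ y, (S.D j c (φ c) y - 2 * (Yv S.m y j c * φ c y)) * S.rho y =
        (∫ y, S.D j c (φ c) y * S.rho y) - 2 * ∫ y, Yv S.m y j c * φ c y * S.rho y := by
      rw [← integral_const_mul, ← integral_sub (i1 c) ((i2 c).const_mul 2)]
      refine integral_congr_ae (Filter.Eventually.of_forall fun y => ?_)
      simp only
      ring
    rw [this, hIb n k S j c _ (hφ c)]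
    ring
  simp only [Finset.sum_mul]
  refine ⟨integrable_finsetSum _ fun c _ => i3 c, ?_⟩
  rw [integral_finsetSum _ fun c _ => i3 c]
  simp only [e3, Finset.sum_const_zero]

/-- The pointwise inequality. -/
theorem ptw (hWa : WaStatement) (hSl : SlStatement) (hSr : SrStatement)
    (S : Sys n k) (j : Fin n) (H : Fin 3 → Pt k → ℝ) (hH : ∀ d, ContDiff ℝ 1 (H d)) (y : Pt k) :
    (S.r y j * be S.m (S.r y) j j / S.L y j * (∑ d, H d y ^ 2) *
          (3 / 2 - (1 - S.δ) * (Gm S.m y j j / S.L y j) + 6 / 5 * S.δ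
            - (1 / 4 + (3 / 5 * S.δ) ^ 2) * (Gm S.m y j j / S.L y j))
        - S.r y j * (Gm S.m y j j / S.L y j) * (∑ d, H d y ^ 2)
        - 12 / 5 * S.δ * (S.r y j / S.L y j) * (∑ d, Yv S.m y j d * H d y) ^ 2
        - (12 / 5 * S.δ * (1 - S.δ) + 6 / 5 * S.δ + 5 * (3 / 5 * S.δ) ^ 2) *
          (S.r y j * be S.m (S.r y) j j / S.L y j ^ 2) * (∑ d, Yv S.m y j d * H d y) ^ 2)
      - 1 / 2 * (∑ c, (S.D j c
          (fun z => S.r z j * (S.L z j)⁻¹ * Yv S.m z j c * ∑ d, H d z ^ 2) y -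
          2 * (Yv S.m y j c * (S.r y j * (S.L y j)⁻¹ * Yv S.m y j c * ∑ d, H d y ^ 2))))
      - 6 / 5 * S.δ * (∑ c, (S.D j c
          (fun z => S.r z j * (S.L z j)⁻¹ * H c z * ∑ d, Yv S.m z j d * H d z) y -
          2 * (Yv S.m y j c * (S.r y j * (S.L y j)⁻¹ * H c y * ∑ d, Yv S.m y j d * H d y)))) ≤
    ∑ d, ∑ i, ∑ c, S.r y j * (S.r y i * S.D i c (H d) y ^ 2) := by
  have hl := hSl n k S
  have hLp := hl.Lpos y j
  have hrp := hl.rpos y j
  have hR : ∑ d, ∑ i, ∑ c, S.r y j * (S.r y i * S.D i c (H d) y ^ 2) =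
      ∑ d, ∑ c, S.r y j * ∑ i, S.r y i * S.D i c (H d) y ^ 2 := by
    refine Finset.sum_congr rfl fun d _ => ?_
    rw [Finset.sum_comm]
    refine Finset.sum_congr rfl fun c _ => ?_
    rw [Finset.mul_sum]
  rw [hR]
  set T : Fin 3 → Fin 3 → ℝ := fun c d => (S.L y j)⁻¹ * (1 / 2 * (Yv S.m y j c * H d y) +
    3 / 5 * S.δ * (H c y * Yv S.m y j d +
      (if c = d then ∑ e, Yv S.m y j e * H e y else 0))) with hT
  have hp : ∑ d, ∑ c, S.r y j * -(2 * T c d * S.D j c (H d) y +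
      be S.m (S.r y) j j * T c d ^ 2) ≤
      ∑ d, ∑ c, S.r y j * ∑ i, S.r y i * S.D i c (H d) y ^ 2 :=
    Finset.sum_le_sum fun d _ => Finset.sum_le_sum fun c _ =>
      mul_le_mul_of_nonneg_left (ptwise hWa hSl S j c (H d) y (T c d)) hrp.le
  refine le_trans (le_of_eq ?_) hp
  simp only [D_phi1 S j _ y hSl hSr H hH, D_phi2 S j _ y hSl hSr H hH]
  have hG : Gm S.m y j j = Yv S.m y j 0 ^ 2 + Yv S.m y j 1 ^ 2 + Yv S.m y j 2 ^ 2 := by
    unfold Gm
    simp only [Fin.sum_univ_three]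
    ring
  rw [hG]
  simp only [hT, Fin.sum_univ_three]
  simp only [Fin.isValue, if_true, show ((0 : Fin 3) = 1) = False by simp,
    show ((0 : Fin 3) = 2) = False by simp, show ((1 : Fin 3) = 0) = False by simp,
    show ((1 : Fin 3) = 2) = False by simp, show ((2 : Fin 3) = 0) = False by simp,
    show ((2 : Fin 3) = 1) = False by simp, if_false]
  field_simp
  ring

theorem ha_st (hWa : WaStatement) (hSl : SlStatement) (hSr : SrStatement) (hTm : TmStatement)
    (hTs : TsStatement) (hIn : InStatement) (hIb : IbStatement) : HaStatement := by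
  intro n k S j H hH
  have hl := hSl n k S
  have hT := hTs n k S 0
  have hM := hTm k
  have hHt : ∀ d, Tame (H d) := fun d => hM.2.2.2.1 _ (hH d).1 (hH d).2
  have hr := hT.tr j
  have hLi := hT.tLi j
  have hrL : Tame fun y => S.r y j * (S.L y j)⁻¹ := hM.2.1 _ _ hr hLi
  have hmul := fun (f g : Pt k → ℝ) (hf : Tame f) (hg : Tame g) => hM.2.1 f g hf hg
  have hsum := hM.2.2.2.2.2
  have hHsq : Tame fun y => ∑ d, H d y ^ 2 := by
    have := hsum (Fin 3) (fun d y => H d y * H d y) fun d => hmul _ _ (hHt d) (hHt d)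
    simpa only [← pow_two] using this
  have hHY : Tame fun y => ∑ d, Yv S.m y j d * H d y :=
    hsum (Fin 3) (fun d y => Yv S.m y j d * H d y) fun d => hmul _ _ (hT.tY j d) (hHt d)
  have hφ1 : ∀ c, Tame fun z => S.r z j * (S.L z j)⁻¹ * Yv S.m z j c * ∑ d, H d z ^ 2 := fun c =>
    hmul _ _ (hmul _ _ hrL (hT.tY j c)) hHsq
  have hφ2 : ∀ c, Tame fun z => S.r z j * (S.L z j)⁻¹ * H c z * ∑ d, Yv S.m z j d * H d z :=
    fun c => hmul _ _ (hmul _ _ hrL (hHt c)) hHY
  obtain ⟨j1, e1⟩ := ib0 hTm hTs hIn hIb S j _ hφ1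
  obtain ⟨j2, e2⟩ := ib0 hTm hTs hIn hIb S j _ hφ2
  have hG : Tame fun y => Gm S.m y j j :=
    hsum (Fin 3) (fun d y => Yv S.m y j d * Yv S.m y j d) fun d => hmul _ _ (hT.tY j d) (hT.tY j d)
  -- the left side
  have hleft : Tame fun y => (S.r y j * be S.m (S.r y) j j / S.L y j * (∑ d, H d y ^ 2) *
          (3 / 2 - (1 - S.δ) * (Gm S.m y j j / S.L y j) + 6 / 5 * S.δ
            - (1 / 4 + (3 / 5 * S.δ) ^ 2) * (Gm S.m y j j / S.L y j))
        - S.r y j * (Gm S.m y j j / S.L y j) * (∑ d, H d y ^ 2)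
        - 12 / 5 * S.δ * (S.r y j / S.L y j) * (∑ d, Yv S.m y j d * H d y) ^ 2
        - (12 / 5 * S.δ * (1 - S.δ) + 6 / 5 * S.δ + 5 * (3 / 5 * S.δ) ^ 2) *
          (S.r y j * be S.m (S.r y) j j / S.L y j ^ 2) * (∑ d, Yv S.m y j d * H d y) ^ 2) := by
    have hc := hM.2.2.1
    have hadd := hM.1
    have hrbL : Tame fun y => S.r y j * be S.m (S.r y) j j * (S.L y j)⁻¹ :=
      hmul _ _ (hmul _ _ hr (hT.tbe j j)) hLi
    have hGL : Tame fun y => Gm S.m y j j * (S.L y j)⁻¹ := hmul _ _ hG hLi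
    have hs2 : Tame fun y => (∑ d, Yv S.m y j d * H d y) ^ 2 := by
      simpa only [← pow_two] using hmul _ _ hHY hHY
    have a1 := hmul _ _ (hmul _ _ hrbL hHsq) (hadd _ _ (hc (3 / 2 + 6 / 5 * S.δ))
      (hmul _ _ (hc (-((1 - S.δ) + (1 / 4 + (3 / 5 * S.δ) ^ 2)))) hGL))
    have a2 := hmul _ _ (hc (-1)) (hmul _ _ (hmul _ _ hr hGL) hHsq)
    have a3 := hmul _ _ (hc (-(12 / 5 * S.δ))) (hmul _ _ hrL hs2)
    have a4 := hmul _ _ (hc (-(12 / 5 * S.δ * (1 - S.δ) + 6 / 5 * S.δ + 5 * (3 / 5 * S.δ) ^ 2)))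
      (hmul _ _ (hmul _ _ hrbL hLi) hs2)
    have a5 := hadd _ _ (hadd _ _ (hadd _ _ a1 a2) a3) a4
    refine Eq.mpr (congrArg Tame (funext fun y => ?_)) a5
    have hLp := hl.Lpos y j
    field_simp
    ring
  have j0 := hIn n k S _ hleft.smooth.continuous hleft.bd
  -- the right side
  have jR : Integrable fun y =>
      (∑ d, ∑ i, ∑ c, S.r y j * (S.r y i * S.D i c (H d) y ^ 2)) * S.rho y := by
    have hPB : ∀ d i c, PB (fun y => S.r y j * (S.r y i * S.D i c (H d) y ^ 2)) ∧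
        Continuous (fun y => S.r y j * (S.r y i * S.D i c (H d) y ^ 2)) := fun d i c => by
      obtain ⟨q1, q2⟩ := hT.pD i c _ (hHt d)
      have m5 := hM.2.2.2.2.1
      refine ⟨?_, ?_⟩
      · have b1 := (m5 _ _ q1 q1).2
        have b2 := (m5 _ _ (hT.tr i).bd b1).2
        have b3 := (m5 _ _ hr.bd b2).2
        simpa only [← pow_two] using b3
      · exact hr.smooth.continuous.mul ((hT.tr i).smooth.continuous.mul (q2.pow 2))
    have hI : ∀ d i c, Integrable fun y =>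
        S.r y j * (S.r y i * S.D i c (H d) y ^ 2) * S.rho y := fun d i c =>
      hIn n k S _ (hPB d i c).2 (hPB d i c).1
    simp only [Finset.sum_mul]
    exact integrable_finsetSum _ fun d _ => integrable_finsetSum _ fun i _ =>
      integrable_finsetSum _ fun c _ => hI d i c
  have key : ∫ y, (((S.r y j * be S.m (S.r y) j j / S.L y j * (∑ d, H d y ^ 2) *
          (3 / 2 - (1 - S.δ) * (Gm S.m y j j / S.L y j) + 6 / 5 * S.δ
            - (1 / 4 + (3 / 5 * S.δ) ^ 2) * (Gm S.m y j j / S.L y j))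
        - S.r y j * (Gm S.m y j j / S.L y j) * (∑ d, H d y ^ 2)
        - 12 / 5 * S.δ * (S.r y j / S.L y j) * (∑ d, Yv S.m y j d * H d y) ^ 2
        - (12 / 5 * S.δ * (1 - S.δ) + 6 / 5 * S.δ + 5 * (3 / 5 * S.δ) ^ 2) *
          (S.r y j * be S.m (S.r y) j j / S.L y j ^ 2) * (∑ d, Yv S.m y j d * H d y) ^ 2)
            * S.rho y
      - 1 / 2 * ((∑ c, (S.D j c
          (fun z => S.r z j * (S.L z j)⁻¹ * Yv S.m z j c * ∑ d, H d z ^ 2) y -
          2 * (Yv S.m y j c * (S.r y j * (S.L y j)⁻¹ * Yv S.m y j c * ∑ d, H d y ^ 2))))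
            * S.rho y))
      - 6 / 5 * S.δ * ((∑ c, (S.D j c
          (fun z => S.r z j * (S.L z j)⁻¹ * H c z * ∑ d, Yv S.m z j d * H d z) y -
          2 * (Yv S.m y j c * (S.r y j * (S.L y j)⁻¹ * H c y * ∑ d, Yv S.m y j d * H d y))))
            * S.rho y)) ≤
      ∫ y, (∑ d, ∑ i, ∑ c, S.r y j * (S.r y i * S.D i c (H d) y ^ 2)) * S.rho y := by
    refine integral_mono ((j0.sub (j1.const_mul _)).sub (j2.const_mul _)) jR fun y => ?_
    have h := mul_le_mul_of_nonneg_right (ptw hWa hSl hSr S j H (fun d => (hH d).1) y)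
      ((hSr n k S 0).rhopos y).le
    simp only
    refine le_trans (le_of_eq ?_) h
    ring
  have gen : ∀ (F Z1 Z2 : Pt k → ℝ) (a b : ℝ), Integrable F → Integrable Z1 → Integrable Z2 →
      ∫ y, (F y - a * Z1 y - b * Z2 y) = (∫ y, F y) - a * (∫ y, Z1 y) - b * ∫ y, Z2 y := by
    intro F Z1 Z2 a b h0 h1 h2
    have h3 : Integrable fun y => F y - a * Z1 y := h0.sub (h1.const_mul a)
    rw [integral_sub h3 (h2.const_mul b), integral_sub h0 (h1.const_mul a), integral_const_mul,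
      integral_const_mul]
  have fin := gen _ _ _ (1 / 2) (6 / 5 * S.δ) j0 j1 j2
  beta_reduce at fin
  rw [fin, e1, e2, mul_zero, mul_zero, sub_zero, sub_zero] at key
  exact key

end Pool.Agent.Lib.MP_fa837f_gt.P2.H97
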